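import Mathlib

open Polynomial Filter

namespace Pool.Agent.Results.MP_0950f1_nt.Counter

/-- the recursion; the value at index zero is unused -/
noncomputable def a (P : ℤ[X]) (N : ℕ) : ℕ → ℤ
  | 0 => N
  | 1 => N
  | n + 2 => a P N (n + 1) - (Int.gcd (a P N (n + 1)) (P.eval ((n : ℤ) + 2)) : ℤ)

/-- first zero -/
noncomputable def f (P : ℤ[X]) (N : ℕ) : ℕ := sInf {n : ℕ | 1 ≤ n ∧ a P N n = 0}

noncomputable def P0 : ℤ[X] := X ^ 2 + X + 2

lemma ev (t : ℤ) : P0.eval t = t ^ 2 + t + 2 := by simp [P0]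

lemma ev_even (t : ℤ) : (2 : ℤ) ∣ P0.eval t := by
  rw [ev]
  have := Int.even_mul_succ_self t
  obtain ⟨k, hk⟩ := this
  exact ⟨k + 1, by linear_combination hk⟩

lemma step (x y : ℤ) (hx : 0 < x) (hy : (2 : ℤ) ∣ y) :
    0 ≤ x - Int.gcd x y ∧ (2 : ℤ) ∣ x - Int.gcd x y ∧ x - Int.gcd x y ≤ x - 1 ∧
      ((2 : ℤ) ∣ x → x - Int.gcd x y ≤ x - 2) := by
  have h1 : ((Int.gcd x y : ℕ) : ℤ) ∣ x := Int.gcd_dvd_left x y
  have h2 : 0 < Int.gcd x y := Int.gcd_pos_of_ne_zero_left y hx.ne'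
  have h3 := Int.le_of_dvd hx h1
  have h4 : (2 : ℤ) ∣ x → (2 : ℤ) ∣ ((Int.gcd x y : ℕ) : ℤ) := fun h => Int.dvd_coe_gcd h hy
  have h5 : (2 : ℤ) ∣ ((Int.gcd x y : ℕ) : ℤ) → (2 : ℤ) ∣ x := fun h => h.trans h1
  refine ⟨by omega, by omega, by omega, fun h => ?_⟩
  have := h4 h
  omega

lemma inv (N : ℕ) (hN : 1 ≤ N) (n : ℕ) :
    (∃ m, 1 ≤ m ∧ m ≤ n + 2 ∧ a P0 N m = 0) ∨
      (0 < a P0 N (n + 2) ∧ (2 : ℤ) ∣ a P0 N (n + 2) ∧ a P0 N (n + 2) ≤ N - 1 - 2 * n) := by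
  induction n with
  | zero =>
    have hx : 0 < a P0 N 1 := by simp only [a]; omega
    have s := step _ _ hx (ev_even ((0 : ℕ) + 2))
    have e : a P0 N (0 + 2) = a P0 N 1 - Int.gcd (a P0 N 1) (P0.eval ((0 : ℕ) + 2)) := rfl
    have e1 : a P0 N 1 = N := rfl
    rw [← e] at s
    rcases s.1.eq_or_lt with h | h
    · exact Or.inl ⟨0 + 2, by omega, le_rfl, h.symm⟩
    · exact Or.inr ⟨h, s.2.1, by omega⟩
  | succ n ih =>
    rcases ih with ⟨m, h1, h2, h3⟩ | ⟨h1, h2, h3⟩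
    · exact Or.inl ⟨m, h1, by omega, h3⟩
    · have s := step _ _ h1 (ev_even ((n + 1 : ℕ) + 2))
      have e : a P0 N (n + 1 + 2) =
          a P0 N (n + 2) - Int.gcd (a P0 N (n + 2)) (P0.eval ((n + 1 : ℕ) + 2)) := rfl
      rw [← e] at s
      rcases s.1.eq_or_lt with h | h
      · exact Or.inl ⟨n + 1 + 2, by omega, le_rfl, h.symm⟩
      · have := s.2.2.2 h2
        refine Or.inr ⟨h, s.2.1, ?_⟩
        push_cast
        omega

lemma f_le (N : ℕ) (hN : 1 ≤ N) : 2 * f P0 N ≤ N + 4 := by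
  rcases inv N hN (N / 2) with ⟨m, h1, h2, h3⟩ | ⟨h1, _, h3⟩
  · have : f P0 N ≤ m := Nat.sInf_le ⟨h1, h3⟩
    omega
  · omega

lemma irr : Irreducible P0 := by
  have hm : P0.Monic := by unfold P0; monicity!
  have hd : P0.natDegree = 2 := by unfold P0; compute_degree!
  rw [hm.irreducible_iff_roots_eq_zero_of_degree_le_three (by omega) (by omega)]
  rw [Multiset.eq_zero_iff_forall_notMem]
  intro t ht
  rw [mem_roots hm.ne_zero, IsRoot, ev] at ht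
  nlinarith [sq_nonneg (2 * t + 1)]

theorem result : ∃ P : ℤ[X], Irreducible P ∧ (∀ n : ℕ, 1 ≤ n → 0 ≤ P.eval (n : ℤ)) ∧
    Tendsto (fun n : ℕ => P.eval (n : ℤ)) atTop atTop ∧
    (∀ N : ℕ, 1 ≤ N → 2 * f P N ≤ N + 4) ∧
    limsup (fun N : ℕ => (f P N : ℝ) / N) atTop ≤ 1 / 2 := by
  refine ⟨P0, irr, fun n _ => by rw [ev]; positivity, ?_, f_le, ?_⟩
  · refine tendsto_atTop_mono (f := fun n : ℕ => (n : ℤ)) (fun n => ?_)
      tendsto_natCast_atTop_atTop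
    rw [ev]
    nlinarith [sq_nonneg (n : ℤ)]
  · have ht : Tendsto (fun N : ℕ => (1 / 2 : ℝ) + 2 / N) atTop (nhds (1 / 2 + 0)) :=
      tendsto_const_nhds.add (tendsto_const_div_atTop_nhds_zero_nat 2)
    rw [add_zero] at ht
    rw [← ht.limsup_eq]
    apply limsup_le_limsup
    · filter_upwards [eventually_ge_atTop 1] with N hN
      have h := f_le N hN
      have h' : (2 : ℝ) * f P0 N ≤ N + 4 := by exact_mod_cast h
      have hN' : (0 : ℝ) < N := by exact_mod_cast hN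
      rw [div_le_iff₀ hN', add_mul, div_mul_cancel₀ _ hN'.ne']
      linarith
    · exact isCoboundedUnder_le_of_le atTop (x := 0) (fun N => by positivity)
    · exact ht.isBoundedUnder_le

end Pool.Agent.Results.MP_0950f1_nt.Counter
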